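import Mathlib

set_option autoImplicit false

open CategoryTheory MonoidalCategory

namespace Pool.Agent.Run7.h184.PH

universe v u w

section blocks

variable {C : Type u} [Category.{v} C] [Preadditive C] [MonoidalCategory C] [MonoidalPreadditive C]
  [SymmetricCategory C]

/-- `t` is self-dual by a symmetric pairing and its dimension is zero -/
structure IsNull (t : C) [ExactPairing t t] : Prop where
  symm : (β_ t t).hom ≫ ε_ t t = ε_ t t
  dim : η_ t t ≫ ε_ t t = 0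

variable (t : C)

/-- the exchange of the first two factors -/
def sw : t ⊗ (t ⊗ t) ⟶ t ⊗ (t ⊗ t) :=
  (α_ t t t).inv ≫ (β_ t t).hom ▷ t ≫ (α_ t t t).hom

lemma sw_sw : sw t ≫ sw t = 𝟙 _ := by
  unfold sw
  simp only [Category.assoc, Iso.hom_inv_id_assoc]
  rw [← comp_whiskerRight_assoc, SymmetricCategory.symmetry]
  simp

variable [ExactPairing t t]

def u0 : t ⟶ t ⊗ (t ⊗ t) := (λ_ t).inv ≫ η_ t t ▷ t ≫ (α_ t t t).hom
def u2 : t ⟶ t ⊗ (t ⊗ t) := (ρ_ t).inv ≫ t ◁ η_ t t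
def u1 : t ⟶ t ⊗ (t ⊗ t) := u2 t ≫ sw t
def v0 : t ⊗ (t ⊗ t) ⟶ t := (α_ t t t).inv ≫ ε_ t t ▷ t ≫ (λ_ t).hom
def v2 : t ⊗ (t ⊗ t) ⟶ t := t ◁ ε_ t t ≫ (ρ_ t).hom
def v1 : t ⊗ (t ⊗ t) ⟶ t := sw t ≫ v2 t

lemma u2_sw : u2 t ≫ sw t ≫ t ◁ (β_ t t).hom = u0 t := by
  unfold u2 sw u0
  have h := BraidedCategory.hexagon_forward t t t
  have h2 : (α_ t t t).inv ≫ (β_ t t).hom ▷ t ≫ (α_ t t t).hom ≫ t ◁ (β_ t t).hom =
      (β_ t (t ⊗ t)).hom ≫ (α_ t t t).hom := by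
    rw [← h, Iso.inv_hom_id_assoc]
  simp only [Category.assoc]
  rw [h2]
  have h3 : t ◁ η_ t t ≫ (β_ t (t ⊗ t)).hom = (β_ t (𝟙_ C)).hom ≫ η_ t t ▷ t :=
    BraidedCategory.braiding_naturality_right t (η_ t t)
  rw [← Category.assoc (t ◁ η_ t t), h3, braiding_tensorUnit_right]
  simp

lemma v2_eq : sw t ≫ t ◁ (β_ t t).hom ≫ v0 t = v2 t := by
  unfold v2 sw v0
  have h := BraidedCategory.hexagon_forward t t t
  have h2 : (α_ t t t).inv ≫ (β_ t t).hom ▷ t ≫ (α_ t t t).hom ≫ t ◁ (β_ t t).hom =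
      (β_ t (t ⊗ t)).hom ≫ (α_ t t t).hom := by
    rw [← h, Iso.inv_hom_id_assoc]
  have h3 : t ◁ ε_ t t ≫ (β_ t (𝟙_ C)).hom = (β_ t (t ⊗ t)).hom ≫ ε_ t t ▷ t :=
    BraidedCategory.braiding_naturality_right t (ε_ t t)
  simp only [Category.assoc]
  have h4 : (α_ t t t).inv ≫ (β_ t t).hom ▷ t ≫ (α_ t t t).hom ≫ t ◁ (β_ t t).hom ≫
      (α_ t t t).inv ≫ ε_ t t ▷ t ≫ (λ_ t).hom =
      ((α_ t t t).inv ≫ (β_ t t).hom ▷ t ≫ (α_ t t t).hom ≫ t ◁ (β_ t t).hom) ≫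
      (α_ t t t).inv ≫ ε_ t t ▷ t ≫ (λ_ t).hom := by simp
  rw [h4, h2]
  simp only [Category.assoc, Iso.hom_inv_id_assoc]
  rw [← Category.assoc, ← h3, braiding_tensorUnit_right]
  simp

lemma bb : t ◁ (β_ t t).hom ≫ t ◁ (β_ t t).hom = 𝟙 _ := by
  rw [← whiskerLeft_comp, SymmetricCategory.symmetry, whiskerLeft_id]

variable {t} (h : IsNull t)
include h

lemma IsNull.sw_v0 : sw t ≫ v0 t = v0 t := by
  unfold sw v0
  simp only [Category.assoc, Iso.hom_inv_id_assoc]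
  rw [← comp_whiskerRight_assoc, h.symm]

lemma IsNull.br_v2 : t ◁ (β_ t t).hom ≫ v2 t = v2 t := by
  unfold v2
  rw [← whiskerLeft_comp_assoc, h.symm]

omit h in
lemma u2_v0 : u2 t ≫ v0 t = 𝟙 t := by
  unfold u2 v0
  have := ExactPairing.coevaluation_evaluation t t
  simp only [Category.assoc]
  rw [← Category.assoc (α_ t t t).inv, ← Category.assoc (t ◁ η_ t t), this]
  simp

omit h in
lemma u0_v2 : u0 t ≫ v2 t = 𝟙 t := by
  unfold u0 v2
  have := ExactPairing.evaluation_coevaluation t t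
  simp only [Category.assoc]
  rw [← Category.assoc (α_ t t t).hom, ← Category.assoc (η_ t t ▷ t), this]
  simp

lemma IsNull.u0_v0 : u0 t ≫ v0 t = 0 := by
  unfold u0 v0
  simp only [Category.assoc, Iso.hom_inv_id_assoc]
  rw [← comp_whiskerRight_assoc, h.dim]
  simp

lemma IsNull.u2_v2 : u2 t ≫ v2 t = 0 := by
  unfold u2 v2
  simp only [Category.assoc]
  rw [← whiskerLeft_comp_assoc, h.dim]
  simp

lemma IsNull.u1_v1 : u1 t ≫ v1 t = 0 := by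
  unfold u1 v1
  rw [Category.assoc, ← Category.assoc (sw t), sw_sw, Category.id_comp, h.u2_v2]

lemma IsNull.u2_v1 : u2 t ≫ v1 t = 𝟙 t := by
  unfold v1
  rw [← h.br_v2, ← Category.assoc (sw t), ← Category.assoc, u2_sw, u0_v2]

lemma IsNull.u1_v2 : u1 t ≫ v2 t = 𝟙 t := by
  have := h.u2_v1
  unfold v1 at this
  unfold u1
  rw [Category.assoc, this]

lemma IsNull.u1_v0 : u1 t ≫ v0 t = 𝟙 t := by
  unfold u1
  rw [Category.assoc, h.sw_v0, u2_v0]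

lemma IsNull.u0_v1 : u0 t ≫ v1 t = 𝟙 t := by
  have e1 : v1 t = t ◁ (β_ t t).hom ≫ v0 t := by
    unfold v1
    rw [← v2_eq, ← Category.assoc, sw_sw, Category.id_comp]
  rw [e1, ← u2_sw]
  simp only [Category.assoc]
  rw [← Category.assoc (t ◁ (β_ t t).hom), bb, Category.id_comp, h.sw_v0, u2_v0]

end blocks

end Pool.Agent.Run7.h184.PH
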