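import Pool.Agent.Run7.h184.PH.Blocks

set_option autoImplicit false

open CategoryTheory MonoidalCategory

namespace Pool.Agent.Run7.h184.PH

universe v u w

section lin

variable {C : Type u} [Category.{v} C] [Preadditive C] [MonoidalCategory C] [MonoidalPreadditive C]
  [SymmetricCategory C] {L : Type w} [Field L] [CharZero L] [Linear L C]

/-- the three splittings of a strand -/
def us (t : C) [ExactPairing t t] (x : Fin 3) : t ⟶ t ⊗ (t ⊗ t) :=
  if x = 0 then u0 t else if x = 1 then u1 t else u2 t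

/-- the three fusions of strands -/
def vs (t : C) [ExactPairing t t] (x : Fin 3) : t ⊗ (t ⊗ t) ⟶ t :=
  if x = 0 then v0 t else if x = 1 then v1 t else v2 t

lemma us_vs {t : C} [ExactPairing t t] (h : IsNull t) (x y : Fin 3) :
    us t x ≫ vs t y = if x = y then 0 else 𝟙 t := by
  fin_cases x <;> fin_cases y <;>
    simp [us, vs, h.u0_v0, h.u0_v1, u0_v2, h.u1_v0, h.u1_v1, h.u1_v2, u2_v0, h.u2_v1, h.u2_v2]

variable (L) in
/-- the dual family of fusions -/
def ds (t : C) [ExactPairing t t] (y : Fin 3) : t ⊗ (t ⊗ t) ⟶ t :=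
  (2 : L)⁻¹ • (vs t 0 + vs t 1 + vs t 2) - vs t y

lemma us_ds {t : C} [ExactPairing t t] (h : IsNull t) (x y : Fin 3) :
    us t x ≫ ds L t y = if x = y then 𝟙 t else 0 := by
  have h2 : (2 : L) ≠ 0 := two_ne_zero
  have e1 : (2 : L)⁻¹ • (𝟙 t + 𝟙 t) = 𝟙 t := by
    rw [← two_smul L (𝟙 t), smul_smul, inv_mul_cancel₀ h2, one_smul]
  unfold ds
  rw [Preadditive.comp_sub, Linear.comp_smul, Preadditive.comp_add, Preadditive.comp_add,
    us_vs h, us_vs h, us_vs h, us_vs h]
  fin_cases x <;> fin_cases y <;> simp [e1]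

/-- the powers of an object -/
def pw (t : C) : ℕ → C
  | 0 => 𝟙_ C
  | n + 1 => t ⊗ pw t n

/-- the maps from `t` to the odd powers of `t` -/
def U (t : C) [ExactPairing t t] : (s : ℕ) → (Fin s → Fin 3) → (t ⟶ pw t (2 * s + 1))
  | 0, _ => (ρ_ t).inv
  | s + 1, w => us t (w 0) ≫ t ◁ (t ◁ U t s (Fin.tail w))

variable (L) in
/-- the dual maps -/
def V (t : C) [ExactPairing t t] : (s : ℕ) → (Fin s → Fin 3) → (pw t (2 * s + 1) ⟶ t)
  | 0, _ => (ρ_ t).hom
  | s + 1, w => t ◁ (t ◁ V t s (Fin.tail w)) ≫ ds L t (w 0)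

lemma U_V {t : C} [ExactPairing t t] (h : IsNull t) (s : ℕ) (w w' : Fin s → Fin 3) :
    U t s w ≫ V L t s w' = if w = w' then 𝟙 t else 0 := by
  induction s with
  | zero =>
    rw [if_pos (Subsingleton.elim _ _)]
    exact (ρ_ t).inv_hom_id
  | succ s ih =>
    have e1 : U t (s + 1) w ≫ V L t (s + 1) w' =
        us t (w 0) ≫ (t ◁ (t ◁ (U t s (Fin.tail w) ≫ V L t s (Fin.tail w')))) ≫ ds L t (w' 0) := by
      simp only [U, V, whiskerLeft_comp, Category.assoc]
      rfl
    rw [e1, ih]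
    by_cases h1 : Fin.tail w = Fin.tail w'
    · rw [if_pos h1, whiskerLeft_id, whiskerLeft_id]
      rw [Category.id_comp, us_ds h]
      by_cases h2 : w 0 = w' 0
      · rw [if_pos h2, if_pos]
        rw [← Fin.cons_self_tail w, ← Fin.cons_self_tail w', h1, h2]
      · rw [if_neg h2, if_neg]
        rintro rfl
        exact h2 rfl
    · rw [if_neg h1, if_neg (by rintro rfl; exact h1 rfl)]
      simp

variable [MonoidalLinear L C]

/-- the classes on the even powers of `t` -/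
def Z (t : C) [ExactPairing t t] (s : ℕ) (w : Fin s → Fin 3) : 𝟙_ C ⟶ pw t (2 * s + 2) :=
  η_ t t ≫ t ◁ U t s w

/-- recovers `U` from `Z` -/
def rec' (t : C) [ExactPairing t t] {Y : C} (g : 𝟙_ C ⟶ t ⊗ Y) : t ⟶ Y :=
  (ρ_ t).inv ≫ t ◁ g ≫ (α_ t t Y).inv ≫ ε_ t t ▷ Y ≫ (λ_ Y).hom

lemma rec_eta {t : C} [ExactPairing t t] {Y : C} (f : t ⟶ Y) : rec' t (η_ t t ≫ t ◁ f) = f := by
  unfold rec'
  rw [whiskerLeft_comp, Category.assoc]
  have e1 : t ◁ t ◁ f ≫ (α_ t t Y).inv ≫ ε_ t t ▷ Y ≫ (λ_ Y).hom =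
      (α_ t t t).inv ≫ ε_ t t ▷ t ≫ (λ_ t).hom ≫ f := by
    rw [← Category.assoc, associator_inv_naturality_right, Category.assoc,
      whisker_exchange_assoc, leftUnitor_naturality]
  rw [e1]
  have := ExactPairing.coevaluation_evaluation t t
  rw [← Category.assoc (α_ t t t).inv, ← Category.assoc (t ◁ η_ t t), this]
  simp

lemma Z_indep {t : C} [ExactPairing t t] (h : IsNull t) (h0 : (𝟙 t : t ⟶ t) ≠ 0) (s : ℕ) :
    LinearIndependent L (Z t s) := by
  rw [Fintype.linearIndependent_iff]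
  intro g hg w
  have e1 : ∑ w', g w' • U t s w' = 0 := by
    have e2 : η_ t t ≫ t ◁ (∑ w', g w' • U t s w') = 0 := by
      refine Eq.trans ?_ hg
      rw [whiskerLeft_sum, Preadditive.comp_sum]
      refine Finset.sum_congr rfl fun w' _ => ?_
      rw [MonoidalLinear.whiskerLeft_smul, Linear.comp_smul]
      rfl
    rw [← rec_eta (∑ w', g w' • U t s w'), e2]
    unfold rec'
    simp
  have e3 : (∑ w', g w' • U t s w') ≫ V L t s w = g w • 𝟙 t := by
    rw [Preadditive.sum_comp]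
    rw [Finset.sum_eq_single w]
    · rw [Linear.smul_comp, U_V h, if_pos rfl]
    · intro w' _ hne
      rw [Linear.smul_comp, U_V h, if_neg hne, smul_zero]
    · intro hcon
      exact absurd (Finset.mem_univ w) hcon
  rw [e1, Limits.zero_comp] at e3
  exact (smul_eq_zero.1 e3.symm).resolve_right h0

end lin

end Pool.Agent.Run7.h184.PH
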