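import Pool.Agent.Run7.h184.PH.Spl

set_option autoImplicit false

open CategoryTheory MonoidalCategory

namespace Pool.Agent.Run7.h184.PH

universe v u w

/-- lower bounds for the dimensions of the spaces of the classes on the powers of `t` -/
def dd : ℕ → ℕ
  | 0 => 1
  | 1 => 0
  | 2 => 1
  | n + 3 => 3 * dd (n + 1)

/-- the numbers of the theorem -/
def aa (b : ℕ) : ℕ → ℕ → ℕ
  | 0, j => dd j
  | n + 1, j => b * aa b n j + aa b n (j + 1)

lemma dd_even (s : ℕ) : dd (2 * s + 2) = 3 ^ s := by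
  induction s with
  | zero => rfl
  | succ s ih =>
    rw [show 2 * (s + 1) + 2 = (2 * s + 1) + 3 by ring, dd, show 2 * s + 1 + 1 = 2 * s + 2 by ring,
      ih, pow_succ, mul_comm]

lemma dd_odd (s : ℕ) : dd (2 * s + 1) = 0 := by
  induction s with
  | zero => rfl
  | succ s ih =>
    rw [show 2 * (s + 1) + 1 = (2 * s) + 3 by ring, dd, ih]

lemma dd_real (j : ℕ) : 6 * (dd j : ℝ) =
    (√3) ^ j + (-√3) ^ j + if j = 0 then 4 else 0 := by
  have h3 : (√3 : ℝ) ^ 2 = 3 := Real.sq_sqrt (by norm_num)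
  induction j using Nat.strong_induction_on with
  | _ j ih =>
    match j with
    | 0 => norm_num [dd]
    | 1 => norm_num [dd]
    | 2 => norm_num [dd, h3]
    | n + 3 =>
      have := ih (n + 1) (by omega)
      rw [if_neg (by omega)] at this ⊢
      rw [dd, Nat.cast_mul]
      push_cast
      have e1 : (√3 : ℝ) ^ (n + 3) = 3 * (√3) ^ (n + 1) := by
        rw [show n + 3 = (n + 1) + 2 by ring, pow_add (√3 : ℝ) (n + 1) 2, h3]; ring
      have e2 : (-√3 : ℝ) ^ (n + 3) = 3 * (-√3) ^ (n + 1) := by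
        rw [show n + 3 = (n + 1) + 2 by ring, pow_add (-√3 : ℝ) (n + 1) 2, neg_sq, h3]; ring
      rw [e1, e2]
      linarith

lemma aa_real (b n j : ℕ) : 6 * (aa b n j : ℝ) =
    (b + √3) ^ n * (√3) ^ j + (b - √3) ^ n * (-√3) ^ j + if j = 0 then 4 * (b : ℝ) ^ n else 0 := by
  induction n generalizing j with
  | zero =>
    rw [aa, dd_real]
    split_ifs <;> simp
  | succ n ih =>
    have e1 := ih (j + 1)
    rw [if_neg (Nat.succ_ne_zero j), add_zero] at e1
    rw [aa, Nat.cast_add, Nat.cast_mul, mul_add, mul_left_comm, ih j, e1]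
    split_ifs <;> ring

section fin

variable {C : Type u} [Category.{v} C] [Preadditive C] [MonoidalCategory C] [MonoidalPreadditive C]
  [SymmetricCategory C] {L : Type w} [Field L] [CharZero L] [Linear L C] [MonoidalLinear L C]

variable (L) in
lemma dd_le {t : C} [ExactPairing t t] (h : IsNull t) (h0 : (𝟙 t : t ⟶ t) ≠ 0) (j : ℕ) :
    (dd j : Cardinal.{v}) ≤ Module.rank L (𝟙_ C ⟶ pw t j) := by
  rcases Nat.even_or_odd' j with ⟨s, rfl | rfl⟩
  · cases s with
    | zero =>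
      change ((1 : ℕ) : Cardinal.{v}) ≤ Module.rank L (𝟙_ C ⟶ 𝟙_ C)
      rw [Nat.cast_one, Cardinal.one_le_iff_pos, rank_pos_iff_exists_ne_zero]
      refine ⟨𝟙 _, fun hcon => h0 ?_⟩
      have : 𝟙 t = (λ_ t).inv ≫ (𝟙 (𝟙_ C)) ▷ t ≫ (λ_ t).hom := by simp
      rw [this, hcon]
      simp
    | succ s =>
      have h1 := (Z_indep (L := L) h h0 s).cardinal_lift_le_rank
      rw [show 2 * (s + 1) = 2 * s + 2 by ring, dd_even]
      have e : Cardinal.mk (Fin s → Fin 3) = ((3 ^ s : ℕ) : Cardinal.{0}) := by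
        rw [Cardinal.mk_fintype]
        simp
      rw [e, Cardinal.lift_natCast] at h1
      simpa using h1
  · rw [dd_odd]
    simp

omit [CharZero L] in
variable (L) in
lemma Splitting.rank_ge {T t : C} {b : ℕ} (S : Splitting T t b) (n : ℕ) (Z : C) :
    (b : Cardinal.{v}) * Module.rank L (𝟙_ C ⟶ P T n Z) + Module.rank L (𝟙_ C ⟶ P T n (t ⊗ Z)) ≤
      Module.rank L (𝟙_ C ⟶ P T n (T ⊗ Z)) := by
  have h1 := LinearMap.rank_le_of_injective (S.Phi L n Z)
    (Function.LeftInverse.injective (S.Psi_Phi L n Z))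
  rw [rank_prod', rank_fun_eq_lift_mul] at h1
  simpa using h1

omit [CharZero L] in
variable (L) in
lemma Splitting.rank_eq {T t : C} {b : ℕ} (S : Splitting T t b) (hS : S.Full)
    (h0 : (𝟙 t : t ⟶ t) = 0) (n : ℕ) (Z : C) :
    Module.rank L (𝟙_ C ⟶ P T n (T ⊗ Z)) = (b : Cardinal.{v}) * Module.rank L (𝟙_ C ⟶ P T n Z) := by
  have h1 := LinearEquiv.rank_eq (LinearEquiv.ofBijective (S.Phi L n Z)
    ⟨Function.LeftInverse.injective (S.Psi_Phi L n Z),
      Function.RightInverse.surjective (S.Phi_Psi L hS n Z)⟩)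
  rw [rank_prod', rank_fun_eq_lift_mul] at h1
  have h2 : Module.rank L (𝟙_ C ⟶ P T n (t ⊗ Z)) = 0 := by
    rw [rank_zero_iff]
    refine ⟨fun x y => ?_⟩
    have h3 : ∀ z : 𝟙_ C ⟶ P T n (t ⊗ Z), z = 0 := by
      intro z
      have h4 : 𝟙 (t ⊗ Z) = 0 := by
        rw [← id_whiskerRight, h0]
        simp
      rw [← Category.comp_id z, ← Pm_id, h4, Pm_zero, Limits.comp_zero]
    rw [h3 x, h3 y]
  rw [h2, add_zero] at h1
  rw [← h1]
  simp

variable (L) in
lemma aa_le {T t : C} [ExactPairing t t] {b : ℕ} (S : Splitting T t b) (h : IsNull t)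
    (h0 : (𝟙 t : t ⟶ t) ≠ 0) (n j : ℕ) :
    (aa b n j : Cardinal.{v}) ≤ Module.rank L (𝟙_ C ⟶ P T n (pw t j)) := by
  induction n generalizing j with
  | zero => exact dd_le L h h0 j
  | succ n ih =>
    refine le_trans ?_ (S.rank_ge L n (pw t j))
    rw [aa, Nat.cast_add, Nat.cast_mul]
    exact add_le_add (mul_le_mul_right (ih j) _) (ih (j + 1))

variable (L) in
/-- the growth theorem -/
theorem growth {T t : C} [ExactPairing t t] {b : ℕ} (S : Splitting T t b) (h : IsNull t)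
    (h0 : (𝟙 t : t ⟶ t) ≠ 0) (n : ℕ) :
    ∃ N : ℕ, (N : Cardinal.{v}) ≤ Module.rank L (𝟙_ C ⟶ pw T n) ∧
      6 * (N : ℝ) = 4 * b ^ n + (b + √3) ^ n + (b - √3) ^ n := by
  refine ⟨aa b n 0, ?_, ?_⟩
  · have h1 := aa_le L S h h0 n 0
    have h2 : P T n (pw t 0) = pw T n := P_pw T n 0
    rw [h2] at h1
    exact h1
  · rw [aa_real]
    simp
    ring

omit [CharZero L] in
variable (L) in
theorem small {T t : C} {b : ℕ} (S : Splitting T t b) (hS : S.Full)
    (h0 : (𝟙 t : t ⟶ t) = 0) (n : ℕ) :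
    Module.rank L (𝟙_ C ⟶ pw T n) = (b : Cardinal.{v}) ^ n * Module.rank L (𝟙_ C ⟶ 𝟙_ C) := by
  induction n with
  | zero =>
    rw [pow_zero, one_mul]
    rfl
  | succ n ih =>
    have h2 := S.rank_eq L hS h0 n (pw T 0)
    have h3 : P T n (T ⊗ pw T 0) = pw T (n + 1) := P_pw T (n + 1) 0
    have h4 : P T n (pw T 0) = pw T n := P_pw T n 0
    rw [h3, h4, ih] at h2
    rw [h2, pow_succ]
    ring

variable (L) in
/-- the three maps are linearly independent -/
theorem us_indep {t : C} [ExactPairing t t] (h : IsNull t) (h0 : (𝟙 t : t ⟶ t) ≠ 0) :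
    LinearIndependent L (us t) := by
  rw [Fintype.linearIndependent_iff]
  intro g hg x
  have e3 : (∑ y, g y • us t y) ≫ ds L t x = g x • 𝟙 t := by
    rw [Preadditive.sum_comp, Finset.sum_eq_single x]
    · rw [Linear.smul_comp, us_ds h, if_pos rfl]
    · intro y _ hne
      rw [Linear.smul_comp, us_ds h, if_neg hne, smul_zero]
    · intro hcon
      exact absurd (Finset.mem_univ x) hcon
  rw [hg, Limits.zero_comp] at e3
  exact (smul_eq_zero.1 e3.symm).resolve_right h0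

end fin

end Pool.Agent.Run7.h184.PH
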