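import Pool.Agent.Run7.h184.PH.Lin

set_option autoImplicit false

open CategoryTheory MonoidalCategory

namespace Pool.Agent.Run7.h184.PH

universe v u w

section spl

variable {C : Type u} [Category.{v} C] [Preadditive C] [MonoidalCategory C] [MonoidalPreadditive C]
  [SymmetricCategory C] {L : Type w} [Field L] [Linear L C] [MonoidalLinear L C]

/-- `b` copies of the unit object and the object `t` are complementary direct summands of `T` -/
structure Splitting (T t : C) (b : ℕ) where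
  i : Fin b → (𝟙_ C ⟶ T)
  p : Fin b → (T ⟶ 𝟙_ C)
  j : t ⟶ T
  q : T ⟶ t
  ip : ∀ k l, i k ≫ p l = if k = l then 𝟙 _ else 0
  iq : ∀ k, i k ≫ q = 0
  jp : ∀ k, j ≫ p k = 0
  jq : j ≫ q = 𝟙 t

/-- `T` is the direct sum of `b` copies of the unit object and of `t` -/
def Splitting.Full {T t : C} {b : ℕ} (S : Splitting T t b) : Prop :=
  ∑ k, S.p k ≫ S.i k + S.q ≫ S.j = 𝟙 T

/-- tensoring `n` times with `T` -/
def P (T : C) : ℕ → C → C
  | 0, Z => Z
  | n + 1, Z => P T n (T ⊗ Z)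

/-- the same for maps -/
def Pm (T : C) : (n : ℕ) → {Z Z' : C} → (Z ⟶ Z') → (P T n Z ⟶ P T n Z')
  | 0, _, _, f => f
  | n + 1, _, _, f => Pm T n (T ◁ f)

lemma Pm_comp (T : C) (n : ℕ) {X Y Z : C} (f : X ⟶ Y) (g : Y ⟶ Z) :
    Pm T n f ≫ Pm T n g = Pm T n (f ≫ g) := by
  induction n generalizing X Y Z with
  | zero => rfl
  | succ n ih =>
    simp only [Pm, whiskerLeft_comp]
    exact ih _ _

lemma Pm_id (T : C) (n : ℕ) (X : C) : Pm T n (𝟙 X) = 𝟙 _ := by
  induction n generalizing X with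
  | zero => rfl
  | succ n ih =>
    simp only [Pm, whiskerLeft_id]
    exact ih _

lemma Pm_zero (T : C) (n : ℕ) (X Y : C) : Pm T n (0 : X ⟶ Y) = 0 := by
  induction n generalizing X Y with
  | zero => rfl
  | succ n ih =>
    simp only [Pm, MonoidalPreadditive.whiskerLeft_zero]
    exact ih _ _

lemma Pm_add (T : C) (n : ℕ) {X Y : C} (f g : X ⟶ Y) :
    Pm T n (f + g) = Pm T n f + Pm T n g := by
  induction n generalizing X Y with
  | zero => rfl
  | succ n ih =>
    simp only [Pm, MonoidalPreadditive.whiskerLeft_add]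
    exact ih _ _

lemma Pm_sum (T : C) (n : ℕ) {X Y : C} {ι : Type*} (s : Finset ι) (f : ι → (X ⟶ Y)) :
    Pm T n (∑ k ∈ s, f k) = ∑ k ∈ s, Pm T n (f k) := by
  classical
  induction s using Finset.induction_on with
  | empty => simp [Pm_zero]
  | insert a s ha ih => rw [Finset.sum_insert ha, Finset.sum_insert ha, Pm_add, ih]

lemma P_pw (T : C) (n m : ℕ) : P T n (pw T m) = pw T (n + m) := by
  induction n generalizing m with
  | zero => rw [Nat.zero_add]; rfl
  | succ n ih =>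
    have := ih (m + 1)
    rw [show n + 1 + m = n + (m + 1) by omega, ← this]
    rfl

variable {T t : C} {b : ℕ} (S : Splitting T t b)

/-- the inclusions -/
def Splitting.inc (Z : C) (k : Fin b) : Z ⟶ T ⊗ Z := (λ_ Z).inv ≫ S.i k ▷ Z
/-- the projections -/
def Splitting.prj (Z : C) (k : Fin b) : T ⊗ Z ⟶ Z := S.p k ▷ Z ≫ (λ_ Z).hom

lemma Splitting.inc_prj (Z : C) (k l : Fin b) :
    S.inc Z k ≫ S.prj Z l = if k = l then 𝟙 _ else 0 := by
  unfold Splitting.inc Splitting.prj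
  rw [Category.assoc, ← comp_whiskerRight_assoc, S.ip]
  split_ifs with h
  · simp
  · simp

lemma Splitting.inc_q (Z : C) (k : Fin b) : S.inc Z k ≫ S.q ▷ Z = 0 := by
  unfold Splitting.inc
  rw [Category.assoc, ← comp_whiskerRight, S.iq]
  simp

lemma Splitting.j_prj (Z : C) (k : Fin b) : S.j ▷ Z ≫ S.prj Z k = 0 := by
  unfold Splitting.prj
  rw [← comp_whiskerRight_assoc, S.jp]
  simp

lemma Splitting.j_q (Z : C) : S.j ▷ Z ≫ S.q ▷ Z = 𝟙 _ := by
  rw [← comp_whiskerRight, S.jq]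
  simp

lemma Splitting.full (hS : S.Full) (Z : C) :
    ∑ k, S.prj Z k ≫ S.inc Z k + S.q ▷ Z ≫ S.j ▷ Z = 𝟙 (T ⊗ Z) := by
  have h1 : (∑ k, S.p k ≫ S.i k + S.q ≫ S.j) ▷ Z = 𝟙 (T ⊗ Z) := by
    rw [hS]
    simp
  rw [← h1, MonoidalPreadditive.add_whiskerRight, sum_whiskerRight]
  congr 1
  · refine Finset.sum_congr rfl fun k _ => ?_
    unfold Splitting.inc Splitting.prj
    simp
  · simp

variable (L)

/-- the map from the sum of the spaces of the summands -/
def Splitting.Phi (n : ℕ) (Z : C) :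
    ((Fin b → (𝟙_ C ⟶ P T n Z)) × (𝟙_ C ⟶ P T n (t ⊗ Z))) →ₗ[L] (𝟙_ C ⟶ P T n (T ⊗ Z)) where
  toFun x := ∑ k, x.1 k ≫ Pm T n (S.inc Z k) + x.2 ≫ Pm T n (S.j ▷ Z)
  map_add' x y := by
    simp only [Prod.fst_add, Prod.snd_add, Pi.add_apply, Preadditive.add_comp,
      Finset.sum_add_distrib]
    abel
  map_smul' c x := by
    simp only [Prod.smul_fst, Prod.smul_snd, Pi.smul_apply, Linear.smul_comp, RingHom.id_apply,
      smul_add, Finset.smul_sum]

/-- the map to the sum of the spaces of the summands -/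
def Splitting.Psi (n : ℕ) (Z : C) :
    (𝟙_ C ⟶ P T n (T ⊗ Z)) →ₗ[L] ((Fin b → (𝟙_ C ⟶ P T n Z)) × (𝟙_ C ⟶ P T n (t ⊗ Z))) where
  toFun x := (fun k => x ≫ Pm T n (S.prj Z k), x ≫ Pm T n (S.q ▷ Z))
  map_add' x y := by
    ext <;> simp [Preadditive.add_comp]
  map_smul' c x := by
    ext <;> simp [Linear.smul_comp]

lemma Splitting.Psi_Phi (n : ℕ) (Z : C) (x) : S.Psi L n Z (S.Phi L n Z x) = x := by
  obtain ⟨x, y⟩ := x
  apply Prod.ext
  · funext l
    change (∑ k, x k ≫ Pm T n (S.inc Z k) + y ≫ Pm T n (S.j ▷ Z)) ≫ Pm T n (S.prj Z l) = x l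
    rw [Preadditive.add_comp, Preadditive.sum_comp, Category.assoc, Pm_comp, S.j_prj, Pm_zero,
      Limits.comp_zero, add_zero, Finset.sum_eq_single l]
    · rw [Category.assoc, Pm_comp, S.inc_prj, if_pos rfl, Pm_id, Category.comp_id]
    · intro k _ hk
      rw [Category.assoc, Pm_comp, S.inc_prj, if_neg hk, Pm_zero, Limits.comp_zero]
    · intro h
      exact absurd (Finset.mem_univ l) h
  · change (∑ k, x k ≫ Pm T n (S.inc Z k) + y ≫ Pm T n (S.j ▷ Z)) ≫ Pm T n (S.q ▷ Z) = y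
    rw [Preadditive.add_comp, Preadditive.sum_comp, Category.assoc, Pm_comp, S.j_q, Pm_id,
      Category.comp_id, Finset.sum_eq_zero, zero_add]
    intro k _
    rw [Category.assoc, Pm_comp, S.inc_q, Pm_zero, Limits.comp_zero]

lemma Splitting.Phi_Psi (hS : S.Full) (n : ℕ) (Z : C) (x) : S.Phi L n Z (S.Psi L n Z x) = x := by
  change ∑ k, (x ≫ Pm T n (S.prj Z k)) ≫ Pm T n (S.inc Z k) +
    (x ≫ Pm T n (S.q ▷ Z)) ≫ Pm T n (S.j ▷ Z) = x
  have h1 := congrArg (Pm T n) (S.full hS Z)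
  rw [Pm_add, Pm_sum, Pm_id] at h1
  have h2 := congrArg (fun f => x ≫ f) h1
  simp only [Preadditive.comp_add, Preadditive.comp_sum] at h2
  rw [← Pm_comp] at h2
  simp only [← Pm_comp] at h2
  simp only [Category.assoc]
  rw [h2]
  exact Category.comp_id x

end spl

end Pool.Agent.Run7.h184.PH
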